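import Mathlib

namespace Pool.Agent.Results.MP_035205_an.Example

open scoped ComplexOrder
open Filter Topology OnePoint

/-- The commutative unital C*-algebra `C(ℤ ∪ {∞})`; `E = B` with `⟨x, y⟩ = x* y`. -/
abbrev B := C(OnePoint ℤ, ℂ)

/-- The linking algebra of the Hilbert module `E = B`, namely `M₂(B)` with its C*-norm. -/
abbrev Link := CStarMatrix (Fin 2) (Fin 2) B

/-- The closed linear span. -/
def clSpan (S : Set B) : Set B := closure (Submodule.span ℂ S : Set B)

/-- The linking algebra of a ternary subspace `F`, inside `M₂(B)`. -/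
def LF (F : Submodule ℂ B) : Set Link :=
  {a | a 0 0 ∈ clSpan {b | ∃ x ∈ F, ∃ y ∈ F, b = star x * y} ∧ star (a 0 1) ∈ F ∧ a 1 0 ∈ F ∧
    a 1 1 ∈ clSpan {b | ∃ x ∈ F, ∃ y ∈ F, b = x * star y}}

/-- The reflection. -/
noncomputable def σ : C(OnePoint ℤ, OnePoint ℤ) :=
  ⟨(Homeomorph.neg ℤ).onePointCongr, (Homeomorph.neg ℤ).onePointCongr.continuous⟩

lemma σσ (t : OnePoint ℤ) : σ (σ t) = t := by
  induction t using OnePoint.rec with
  | infty => rfl
  | coe n => exact congrArg OnePoint.some (neg_neg n)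

/-- Odd functions. -/
def Odd' : Submodule ℂ B where
  carrier := {f | ∀ t, f (σ t) = -f t}
  add_mem' {f g} hf hg t := by simp only [ContinuousMap.add_apply, hf t, hg t, neg_add]
  zero_mem' t := by simp
  smul_mem' c f hf t := by simp only [ContinuousMap.smul_apply, hf t, smul_neg]

/-- The odd part. -/
noncomputable def Pr : B →ₗ[ℂ] B where
  toFun f := (1 / 2 : ℂ) • (f - f.comp σ)
  map_add' f g := by ext t; simp; ring
  map_smul' c f := by ext t; simp; ring

/-- Odd bumps. -/
noncomputable def bump (n : ℕ) : B :=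
  continuousMapMkDiscrete (fun m : ℤ => if m = n + 1 then 1 else if m = -(n + 1) then -1 else 0) 0
    (tendsto_const_nhds.congr' (by
      filter_upwards [eventually_cofinite_ne ((n : ℤ) + 1), eventually_cofinite_ne (-((n : ℤ) + 1))]
        with m h1 h2
      rw [if_neg h1, if_neg h2]))

lemma bump_coe (n : ℕ) (m : ℤ) :
    bump n m = if m = n + 1 then 1 else if m = -(n + 1) then -1 else 0 := rfl

lemma bump_mem (n : ℕ) : bump n ∈ Odd' := fun t => by
  induction t using OnePoint.rec with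
  | infty => exact neg_zero.symm
  | coe m =>
    change bump n ((-m : ℤ) : OnePoint ℤ) = _
    rw [bump_coe, bump_coe]
    split_ifs <;> first | omega | simp

lemma bump_idem (n : ℕ) : bump n * star (bump n) * (bump n * star (bump n)) =
    bump n * star (bump n) := ContinuousMap.ext fun t => by
  induction t using OnePoint.rec with
  | infty => exact mul_eq_zero_of_left (zero_mul _) _ |>.trans (zero_mul _).symm
  | coe m =>
    simp only [ContinuousMap.mul_apply, ContinuousMap.star_apply, bump_coe]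
    split_ifs <;> simp

theorem result : ∃ (F : Submodule ℂ B) (P : B →ₗ[ℂ] B), IsClosed (F : Set B) ∧
    (∀ x ∈ F, ∀ y ∈ F, ∀ z ∈ F, x * (star y * z) ∈ F) ∧
    (∀ x, P x ∈ F) ∧ (∀ x ∈ F, P x = x) ∧ (∀ x, ‖P x‖ ≤ ‖x‖) ∧
    ¬ ∃ Φ : Link →ₗ[ℂ] Link, (∀ a, ‖Φ a‖ ≤ ‖a‖) ∧ (∀ a, Φ a ∈ LF F) ∧ ∀ a ∈ LF F, Φ a = a := by
  refine ⟨Odd', Pr, ?_, fun x hx y hy z hz t => ?_, fun x t => ?_, fun x hx => ?_, fun x => ?_, ?_⟩
  · change IsClosed {f : B | ∀ t, f (σ t) = -f t}
    simp only [Set.ofPred_forall]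
    exact isClosed_iInter fun t => isClosed_eq (continuous_eval_const _)
      (continuous_eval_const t).neg
  · simp only [ContinuousMap.mul_apply, ContinuousMap.star_apply, hx t, hy t, hz t, star_neg]
    ring
  · change (1 / 2 : ℂ) * (x (σ t) - x (σ (σ t))) = -((1 / 2 : ℂ) * (x t - x (σ t)))
    rw [σσ]
    ring
  · ext t
    change (1 / 2 : ℂ) * (x t - x (σ t)) = x t
    rw [hx t]
    ring
  · refine (ContinuousMap.norm_le _ (norm_nonneg x)).2 fun t => ?_
    change ‖(1 / 2 : ℂ) * (x t - x (σ t))‖ ≤ _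
    have := norm_sub_le (x t) (x (σ t))
    rw [norm_mul, norm_div, norm_one, Complex.norm_two]
    linarith [x.norm_coe_le_norm t, x.norm_coe_le_norm (σ t)]
  rintro ⟨Φ, h1, h2, h3⟩
  have h0 : (Φ 1) 1 1 ∞ = 0 := by
    have h4 : clSpan {b | ∃ x ∈ Odd', ∃ y ∈ Odd', b = x * star y} ⊆
        (LinearMap.ker (ContinuousMap.evalCLM ℂ (∞ : OnePoint ℤ) : B →L[ℂ] ℂ).toLinearMap :
          Set B) := by
      refine closure_minimal (Submodule.span_le.2 ?_) (ContinuousLinearMap.isClosed_ker _)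
      rintro _ ⟨x, hx, y, -, rfl⟩
      exact mul_eq_zero_of_left (self_eq_neg.1 (hx ∞)) _
    exact h4 (h2 1).2.2.2
  have h5 : ∀ n : ℕ, 1 ≤ ‖(Φ 1) 1 1 ((n + 1 : ℤ) : OnePoint ℤ)‖ := fun n => by
    let p : Link := CStarMatrix.ofMatrix !![0, 0; 0, bump n * star (bump n)]
    have hp : p ∈ LF Odd' := ⟨subset_closure (Submodule.zero_mem _),
      (star_zero B).symm ▸ Odd'.zero_mem, Odd'.zero_mem,
      subset_closure (Submodule.subset_span ⟨_, bump_mem n, _, bump_mem n, rfl⟩)⟩
    have hpp : p * p = p := by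
      refine CStarMatrix.ext fun i j => ?_
      fin_cases i <;> fin_cases j <;>
        simp [p, CStarMatrix.mul_apply, Fin.sum_univ_two, bump_idem]
    have hps : star p = p := by
      refine CStarMatrix.ext fun i j => ?_
      fin_cases i <;> fin_cases j <;> simp [p, CStarMatrix.star_apply, mul_comm]
    have hv : star (1 - (p + p)) * (1 - (p + p)) = 1 := by
      rw [star_sub, star_add, star_one, hps]
      simp only [mul_sub, sub_mul, mul_add, add_mul, hpp, one_mul, mul_one]
      abel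
    have hn : ‖1 - (p + p)‖ ≤ 1 := by
      have h6 := CStarRing.norm_star_mul_self (x := 1 - (p + p))
      rw [hv] at h6
      have h7 := (IsStarProjection.one Link).norm_le
      nlinarith [norm_nonneg (1 - (p + p))]
    have h8 := (h1 (1 - (p + p))).trans hn
    rw [map_sub, map_add, h3 p hp] at h8
    have h9 := (((Φ 1 - (p + p)) 1 1).norm_coe_le_norm ((n + 1 : ℤ) : OnePoint ℤ)).trans
      (CStarMatrix.norm_entry_le_norm.trans h8)
    change ‖(Φ 1) 1 1 ((n + 1 : ℤ) : OnePoint ℤ) - (bump n ((n + 1 : ℤ) : OnePoint ℤ) *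
      star (bump n ((n + 1 : ℤ) : OnePoint ℤ)) + bump n ((n + 1 : ℤ) : OnePoint ℤ) *
      star (bump n ((n + 1 : ℤ) : OnePoint ℤ)))‖ ≤ 1 at h9
    rw [bump_coe, if_pos rfl, star_one, mul_one, one_add_one_eq_two] at h9
    have h10 := norm_sub_norm_le (2 : ℂ) ((Φ 1) 1 1 ((n + 1 : ℤ) : OnePoint ℤ))
    rw [norm_sub_rev, Complex.norm_two] at h10
    linarith
  have h6 := (continuous_iff_from_discrete _).1 ((Φ 1) 1 1).continuous
  rw [h0] at h6
  have h7 : Tendsto (fun n : ℕ => (n + 1 : ℤ)) atTop cofinite := by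
    rw [← Nat.cofinite_eq_atTop]
    exact Function.Injective.tendsto_cofinite fun a b h => by simpa using h
  have h8 := ge_of_tendsto' (h6.comp h7).norm h5
  rw [norm_zero] at h8
  linarith

end Pool.Agent.Results.MP_035205_an.Example
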